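import Pool.Agent.X98.PM.Fin

set_option autoImplicit false

/-!
# MP_c6a450_an: for `n = 3` there is no invariant center

The plane `ℝ²` is `ℂ`.  An `n`-gon is a map `P : Fin n → ℂ` with `P i ≠ P (i + 1)` (indices modulo
`n`), `IsGon` in `Pool.Agent.X98.PM.Def`, where also `qMap` (`q_t`), `rMap` (`r_t`), `FMap` (`f_t`)
and `xi` (`ξ`) are defined.

Idea: `C (q_t P) = C (r_t P)` for small `t` says that `dC` kills `W₁ = 2ξ` and `W₂ = D_{u+v} W₁`
(`u`, `v` the directions of `q_t`, `r_t`), hence all their Lie brackets; at the triangle with sides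
`3, 4, 5` the fields `W₁, W₂, [W₁,W₂], [W₁,[W₁,W₂]], [W₂,[W₁,W₂]]` span the kernel of the
differential of the area, which contains the translations.
-/

open Filter Topology
open scoped ContDiff

namespace Pool.Agent.Results.MP_c6a450_an.NoInvariantCenter

open Pool.Agent.X98.PM

/-- `γ : [a,b] → n`-gons is a trajectory of `ξ`. -/
def IsTrajectory {n : ℕ} [NeZero n] (γ : ℝ → Fin n → ℂ) (a b : ℝ) : Prop :=
  a ≤ b ∧ (∀ s ∈ Set.Icc a b, IsGon (γ s)) ∧
    ∀ s ∈ Set.Icc a b, HasDerivWithinAt γ (xi (γ s)) (Set.Icc a b) s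

/-- `C : U → ℝ²` is an invariant center for `n`. -/
structure IsInvariantCenter (n : ℕ) [NeZero n] (U : Set (Fin n → ℂ)) (C : (Fin n → ℂ) → ℂ) :
    Prop where
  isOpen : IsOpen U
  gon : ∀ P ∈ U, IsGon P
  dense : ∀ P, IsGon P → P ∈ closure U
  trans_mem : ∀ P ∈ U, ∀ v : ℂ, (fun i => P i + v) ∈ U
  flow_mem : ∀ γ a b, IsTrajectory γ a b → (γ a ∈ U ↔ γ b ∈ U)
  f_mem : ∀ t, ∀ R ∈ U, ∀ Q, FMap t R Q → Q ∈ U
  smooth : ContDiffOn ℝ ∞ C U
  equivariant : ∀ P ∈ U, ∀ v : ℂ, C (fun i => P i + v) = C P + v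
  inv_f : ∀ t, ∀ R ∈ U, ∀ Q, FMap t R Q → C Q = C R
  inv_flow : ∀ γ a b, IsTrajectory γ a b → (∀ s ∈ Set.Icc a b, γ s ∈ U) → C (γ a) = C (γ b)

theorem inv_of_FMap {E : Type*} [NormedAddCommGroup E] [NormedSpace ℝ E] {U : Set V} {F : V → E}
    (hU : IsOpen U) (hg : ∀ P ∈ U, IsGon P) (hF : ContDiffOn ℝ 2 F U)
    (h : ∀ t, ∀ R ∈ U, ∀ Q ∈ U, FMap t R Q → F Q = F R) : Inv U F := by
  refine ⟨hU, hg, hF, fun P hP => ?_⟩
  have hside : ∀ᶠ t : ℝ in 𝓝 0, ∀ i, t < ‖(P + t • vv P) i - (P + t • vv P) (i + 1)‖ / 2 := by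
    refine Filter.eventually_all.2 fun i => ?_
    have c1 : ContinuousAt (fun t : ℝ => t) 0 := continuousAt_id
    have c2 : ContinuousAt (fun t : ℝ => ‖(P + t • vv P) i - (P + t • vv P) (i + 1)‖ / 2) 0 := by
      have : Continuous (fun t : ℝ => ‖(P + t • vv P) i - (P + t • vv P) (i + 1)‖ / 2) := by
        simp only [Pi.add_apply, Pi.smul_apply]
        fun_prop
      exact this.continuousAt
    refine c1.eventually_lt c2 ?_
    rw [zero_smul, add_zero]
    have := norm_pos_iff.2 (sub_ne_zero.2 (hg P hP i))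
    positivity
  filter_upwards [self_mem_nhdsWithin, nhdsWithin_le_nhds (line_mem hU hP (uu P)),
    nhdsWithin_le_nhds (line_mem hU hP (vv P)), nhdsWithin_le_nhds hside] with t ht hQ hR hs
  have eR : rMap t P = P + t • vv P := by
    funext i
    simp [rMap, vv, Complex.real_smul]
  have eQ : qMap t P = P + t • uu P := by
    funext i
    simp [qMap, uu, Complex.real_smul]
  refine h t _ hR _ hQ ⟨ht, hs, P, hg P hP, eR, fun P' hP' he => ?_, eQ⟩
  exact rMap_inj ht hP' (hg P hP) (he.trans eR.symm) (fun i => by rw [he]; exact hs i)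

theorem no_center : ¬ ∃ (U : Set (Fin 3 → ℂ)) (C : (Fin 3 → ℂ) → ℂ), IsInvariantCenter 3 U C := by
  rintro ⟨U, C, h⟩
  have hInv : Inv U C := inv_of_FMap h.isOpen h.gon (h.smooth.of_le ENat.LEInfty.out)
    (fun t R hR Q _ hQ => h.inv_f t R hR Q hQ)
  obtain ⟨P, hP, hdet, ha⟩ := ((mem_closure_iff_frequently.1 (h.dense P0 gon0)).and_eventually
    (good_det.and good_dAr)).exists
  have h1 : fderiv ℝ C P (fun _ => 1) = 0 := by
    refine rigid hInv hP hdet ha _ ?_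
    unfold dAr
    simp
  have hd : HasFDerivAt C (fderiv ℝ C P) (P + (0 : ℝ) • (fun _ => 1 : V)) := by
    rw [zero_smul, add_zero]
    exact (((hInv.smooth.contDiffAt (h.isOpen.mem_nhds hP))).differentiableAt
      (by norm_num)).hasFDerivAt
  have h3 : HasDerivAt (fun s : ℝ => P + s • (fun _ => 1 : V)) (fun _ => 1) 0 := by
    simpa using ((hasDerivAt_id (0 : ℝ)).smul_const (fun _ => 1 : V)).const_add P
  have h4 := hd.comp_hasDerivAt (0 : ℝ) h3
  have h5 : (C ∘ fun s : ℝ => P + s • (fun _ => 1 : V)) = fun s : ℝ => C P + (s : ℂ) := by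
    funext s
    have := h.equivariant P hP (s : ℂ)
    rw [← this]
    show C _ = C _
    congr 1
    funext i
    simp
  rw [h5, h1] at h4
  have h6 : HasDerivAt (fun s : ℝ => C P + (s : ℂ)) 1 0 := by
    simpa using ((hasDerivAt_id (0 : ℝ)).ofReal_comp).const_add (C P)
  exact one_ne_zero (h6.unique h4)

/-- **For `n = 3` no invariant center exists**, so the answer to Q1 is negative.  Moreover, near
the triangle with vertices `0, 3, 4i`, every `C²` function invariant under all the maps `f_t` has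
differential proportional to the differential of the area. -/
theorem result :
    (¬ ∃ (U : Set (Fin 3 → ℂ)) (C : (Fin 3 → ℂ) → ℂ), IsInvariantCenter 3 U C) ∧
    (¬ ∀ (n : ℕ) (_ : NeZero n), 3 ≤ n →
      ∃ (U : Set (Fin n → ℂ)) (C : (Fin n → ℂ) → ℂ), IsInvariantCenter n U C) ∧
    ∃ W ∈ 𝓝 (![0, 3, 4 * Complex.I] : Fin 3 → ℂ),
      ∀ (U : Set (Fin 3 → ℂ)) (F : (Fin 3 → ℂ) → ℝ), IsOpen U → (∀ P ∈ U, IsGon P) →
        ContDiffOn ℝ 2 F U → (∀ t, ∀ R ∈ U, ∀ Q ∈ U, FMap t R Q → F Q = F R) →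
        ∀ P ∈ U ∩ W, ∃ c : ℝ, fderiv ℝ F P = c • fderiv ℝ Ar P := by
  refine ⟨no_center, fun h => no_center (h 3 inferInstance le_rfl),
    _, good_det.and good_dAr, ?_⟩
  rintro U F hU hg hF h P ⟨hP, hdet, ha⟩
  have hInv := inv_of_FMap hU hg hF h
  refine ⟨fderiv ℝ F P (fld P 0 ![1, 0, 0]) / dAr P (fld P 0 ![1, 0, 0]), ?_⟩
  ext w
  have h0 : dAr P (w - (dAr P w / dAr P (fld P 0 ![1, 0, 0])) • fld P 0 ![1, 0, 0]) = 0 := by
    rw [← Ar_fderiv, map_sub, map_smul, Ar_fderiv, Ar_fderiv, smul_eq_mul, div_mul_cancel₀ _ ha,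
      sub_self]
  have h1 := rigid hInv hP hdet ha _ h0
  rw [map_sub, map_smul, sub_eq_zero] at h1
  rw [h1, smul_apply, Ar_fderiv, smul_eq_mul, smul_eq_mul]
  ring

end Pool.Agent.Results.MP_c6a450_an.NoInvariantCenter
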